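import Pool.Agent.E8helper3.CH.Pt
import Pool.Agent.R904.CU.KMain

/-!
# Every group `K'_n(X)` is, up to `K'_{n+1}` of the base, the group `K'_{n+1}` of a smooth affine cubic

`KTheory R` lists the properties of Quillen's groups `K'_n(X)` of the schemes of finite type over a
noetherian ring `R` which are used: functoriality for flat morphisms, localization, homotopy invariance, and
the splitting given by a section of a smooth morphism (sections of smooth morphisms are regular immersions,
so that there is a pull-back along them).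

Let `X` be a scheme of finite type over `R`, singular or not, which is affine or, more generally, carries an
affine bundle whose total space is affine (`InJ`; by Jouanolou and Thomason this holds for all quasi-projective
schemes, and for all schemes with an ample family of line bundles). The theorem constructs one family `g` of
polynomials of degree at most two, such that the smooth affine cubic hypersurface `H : ∑ yₖ gₖ(x) = 1` over
`R`, which is regular if `R` is regular, satisfies `K'_0(H) = K'_0(R)` and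

`K'_{n+1}(H) = K'_{n+1}(R) ⊕ K'_n(X)` for all `n ≥ 0`.

(If `R` is regular then `K'_n(H) = K_n(H)`.) So if the groups `K'_n(R)` are finitely generated, for instance for
`R = ℤ`, then for each single `X` and each single degree `n` the group `K'_n(X)` is finitely generated if and
only if `K'_{n+1}(H)` is.
-/

set_option autoImplicit false

open CategoryTheory CategoryTheory.Limits AlgebraicGeometry MvPolynomial
open Pool.Agent.R904.CU Pool.Agent.Y116.UV Pool.Agent.E8helper3.CH

namespace Pool.Agent.Results.MP_e17fa799_al.CubicSuspensionH3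

/-- Quillen's groups `K'_n(X)` of the schemes of finite type over `R`, with the properties which are
used. -/
structure KTheory (R : Type) [CommRing R] where
  /-- the group `K'_n(X)` -/
  G : ℕ → Sch R → Type
  /-- its group structure -/
  grp : ∀ (n : ℕ) (X : Sch R), AddCommGroup (G n X)
  /-- the pull-back along `f`, if `f` is flat (for other `f` nothing is assumed) -/
  pull : ∀ (n : ℕ) {X Y : Sch R}, (X ⟶ Y) → (G n Y →+ G n X)
  /-- functoriality for flat morphisms -/
  pull_id : ∀ (n : ℕ) (X : Sch R) (x : G n X), pull n (𝟙 X) x = x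
  /-- functoriality for flat morphisms -/
  pull_comp : ∀ (n : ℕ) {X Y Z : Sch R} (f : X ⟶ Y) (g : Y ⟶ Z), Flat f.left → Flat g.left →
    ∀ z : G n Z, pull n (f ≫ g) z = pull n f (pull n g z)
  /-- the localization sequence `K'_{n+1}(X) → K'_{n+1}(U) → K'_n(Z) → K'_n(X) → K'_n(U)` of a closed
  subscheme `Z` with open complement `U`, where `K'_n(X) → K'_n(U)` is the restriction; the last map is
  surjective for `n = 0` -/
  localization : ∀ {Z X U : Sch R} (i : Z ⟶ X) (j : U ⟶ X), FT False X → IsTriple i j →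
    ∃ (a : ∀ n, G n Z →+ G n X) (d : ∀ n, G (n + 1) U →+ G n Z),
      (∀ n, Function.Exact (a n) (pull n j)) ∧ (∀ n, Function.Exact (pull (n + 1) j) (d n)) ∧
      (∀ n, Function.Exact (d n) (a n)) ∧ Function.Surjective (pull 0 j)
  /-- homotopy invariance: the pull-back along an affine bundle is an isomorphism -/
  bundle : ∀ (n N : ℕ) {E X : Sch R} (π : E ⟶ X), FT False X → FT False E →
    IsAffineBundle N π.left → Function.Bijective (pull n π)
  /-- the pull-back along a smooth morphism with a section has a left inverse -/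
  retraction : ∀ (n : ℕ) {X Y : Sch R} (f : X ⟶ Y) (s : Y ⟶ X), FT False X → FT False Y →
    Smooth f.left → s ≫ f = 𝟙 Y → ∃ r : G n X →+ G n Y, ∀ y, r (pull n f y) = y

attribute [instance] KTheory.grp

section algebra

variable {A B C : Type} [AddCommGroup A] [AddCommGroup B] [AddCommGroup C]

/-- a split short exact sequence -/
theorem split (b : A →+ B) (d : B →+ C) (r : B →+ A) (h : Function.Exact b d)
    (hd : Function.Surjective d) (hr : ∀ x, r (b x) = x) : Nonempty (B ≃+ A × C) := by
  refine ⟨AddEquiv.ofBijective (r.prod d) ⟨?_, ?_⟩⟩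
  · rw [injective_iff_map_eq_zero]
    intro u hu
    have h1 : r u = 0 := congrArg Prod.fst hu
    have h2 : d u = 0 := congrArg Prod.snd hu
    obtain ⟨x, rfl⟩ := (h u).1 h2
    rw [hr] at h1
    rw [h1, map_zero]
  · rintro ⟨x, z⟩
    obtain ⟨u, rfl⟩ := hd z
    refine ⟨u - b (r u) + b x, ?_⟩
    have h1 : ∀ y, d (b y) = 0 := fun y => (h (b y)).2 ⟨y, rfl⟩
    change (r _, d _) = _
    rw [map_add, map_sub, map_add, map_sub, hr, hr, h1, h1]
    ext
    · simp
    · simp

end algebra

namespace KTheory

variable {R : Type} [CommRing R] (K : KTheory R)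

theorem bundle_equiv (n N : ℕ) {E X : Sch R} (π : E ⟶ X) (hX : FT False X) (hE : FT False E)
    (hπ : IsAffineBundle N π.left) : Nonempty (K.G n X ≃+ K.G n E) :=
  ⟨AddEquiv.ofBijective (K.pull n π) (K.bundle n N π hX hE hπ)⟩

theorem flat_iso {X Y : Sch R} (e : X ≅ Y) : Flat e.hom.left := by
  have h : IsIso e.hom.left := ((Over.forget _).mapIso e).isIso_hom
  infer_instance

theorem iso_equiv (n : ℕ) {X Y : Sch R} (e : X ≅ Y) : Nonempty (K.G n Y ≃+ K.G n X) := by
  refine ⟨AddMonoidHom.toAddEquiv (K.pull n e.hom) (K.pull n e.inv) ?_ ?_⟩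
  · ext y
    change K.pull n e.inv (K.pull n e.hom y) = y
    rw [← K.pull_comp n e.inv e.hom (flat_iso e.symm) (flat_iso e), e.inv_hom_id, K.pull_id]
  · ext y
    change K.pull n e.hom (K.pull n e.inv y) = y
    rw [← K.pull_comp n e.hom e.inv (flat_iso e) (flat_iso e.symm), e.hom_inv_id, K.pull_id]

section

variable {σ κ : Type} [Fintype σ] [Fintype κ] (g : κ → MvPolynomial σ R)
  (k : κ) (x : σ → R) (hx : aeval x (g k) = 1)

include hx


/-- the restriction to the complement of `V(g)` has a left inverse if the hypersurface has a point -/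
theorem exists_left_inverse (n : ℕ) : ∃ r : K.G n (cmp g) →+ K.G n (aff R (MvPolynomial σ R)),
    ∀ y, r (K.pull n (cmpMap g) y) = y := by
  obtain ⟨p⟩ := exists_pt g k x hx
  obtain ⟨s, hs⟩ := exists_section g p
  have f1 : Flat (bunMap g).left := by
    have := smooth_bunMap g
    infer_instance
  have f2 : Flat (cmpMap g).left := by
    have := smooth_cmpMap g
    infer_instance
  have f3 : Flat (spMap R σ).left := by
    have := smooth_spMap (R := R) (σ := σ)
    infer_instance
  have f23 : Flat (cmpMap g ≫ spMap R σ).left := by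
    rw [Over.comp_left]
    infer_instance
  have hsm : Smooth (affMap (Algebra.ofId R (Ring1 g))).left := smooth_ring1 g
  obtain ⟨r, hr⟩ := K.retraction n (affMap (Algebra.ofId R (Ring1 g))) s (ft_bun g False)
    (ft_aff False) hsm hs
  have hb := K.bundle n _ (spMap R σ) (ft_aff False) (ft_aff False) (isAffineBundle_spMap R σ)
  refine ⟨(K.pull n (spMap R σ)).comp (r.comp (K.pull n (bunMap g))), fun y => ?_⟩
  obtain ⟨z, rfl⟩ := hb.2 y
  change K.pull n (spMap R σ) (r (K.pull n (bunMap g) (K.pull n (cmpMap g) _))) = _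
  rw [← K.pull_comp n (cmpMap g) (spMap R σ) f2 f3, ← K.pull_comp n (bunMap g) _ f1 f23,
    comp_maps, hr]

theorem zero_equiv [IsNoetherianRing R] : Nonempty (K.G 0 (cub g) ≃+ K.G 0 (aff R R)) := by
  obtain ⟨r, hr⟩ := K.exists_left_inverse g k x hx 0
  obtain ⟨a, d, -, -, -, h⟩ := K.localization (zerMap g) (cmpMap g) (ft_aff False) (triple_zer g)
  have hb : Function.Bijective (K.pull 0 (cmpMap g)) :=
    ⟨Function.LeftInverse.injective hr, h⟩
  obtain ⟨e1⟩ := K.iso_equiv 0 (cubIso g)
  obtain ⟨e2⟩ := K.bundle_equiv 0 _ (bunMap g) (ft_cmp g False) (ft_bun g False)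
    (isAffineBundle_bunMap g)
  obtain ⟨e3⟩ := K.bundle_equiv 0 _ (spMap R σ) (ft_aff False) (ft_aff False)
    (isAffineBundle_spMap R σ)
  exact ⟨(e1.symm.trans (e2.symm.trans (AddEquiv.ofBijective _ hb).symm)).trans e3.symm⟩

theorem succ_equiv [IsNoetherianRing R] (n : ℕ) : Nonempty (K.G (n + 1) (cub g) ≃+
    K.G (n + 1) (aff R R) × K.G n (aff R (MvPolynomial σ R ⧸ Ideal.span (Set.range g)))) := by
  obtain ⟨r, hr⟩ := K.exists_left_inverse g k x hx n
  obtain ⟨r', hr'⟩ := K.exists_left_inverse g k x hx (n + 1)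
  obtain ⟨a, d, h1, h2, h3, -⟩ := K.localization (zerMap g) (cmpMap g) (ft_aff False)
    (triple_zer g)
  have hd : Function.Surjective (d n) := by
    intro z
    have h4 : K.pull n (cmpMap g) (a n z) = 0 := (h1 n _).2 ⟨z, rfl⟩
    have h5 : a n z = 0 := by
      rw [← hr (a n z), h4, map_zero]
    exact (h3 n z).1 h5
  obtain ⟨e⟩ := split _ _ r' (h2 n) hd hr'
  obtain ⟨e1⟩ := K.iso_equiv (n + 1) (cubIso g)
  obtain ⟨e2⟩ := K.bundle_equiv (n + 1) _ (bunMap g) (ft_cmp g False) (ft_bun g False)
    (isAffineBundle_bunMap g)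
  obtain ⟨e3⟩ := K.bundle_equiv (n + 1) _ (spMap R σ) (ft_aff False) (ft_aff False)
    (isAffineBundle_spMap R σ)
  exact ⟨(e1.symm.trans (e2.symm.trans e)).trans (e3.symm.prodCongr (AddEquiv.refl _))⟩

end

end KTheory

/-- Let `R` be a noetherian ring and `X` a scheme of finite type over `R` with an affine bundle whose total
space is affine. For all large `m` there are polynomials `gₖ` of degree at most two over `R` in `m` variables
such that the cubic hypersurface `H : ∑ yₖ gₖ(x) = 1` is smooth over `R`, and regular if `R` is regular, and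
such that for all `KTheory R`: `K'_0(H) = K'_0(R)`, and `K'_{n+1}(H) = K'_{n+1}(R) ⊕ K'_n(X)` for all `n ≥ 0`;
in particular, for each `n` for which `K'_{n+1}(R)` is finitely generated, `K'_{n+1}(H)` is finitely generated
if and only if `K'_n(X)` is. -/
theorem result (R : Type) [CommRing R] [IsNoetherianRing R] (X : Sch R) (hX : InJ False X) :
    ∃ m₀ : ℕ, ∀ m : ℕ, m₀ ≤ m → ∃ (κ : Type) (_ : Fintype κ) (g : κ → MvPolynomial (Fin m) R),
      (∀ k, (g k).totalDegree ≤ 2) ∧ Smooth (cub g).hom ∧
      (IsRegularRing R → IsRegularScheme (cub g).left) ∧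
      ∀ K : KTheory R, Nonempty (K.G 0 (cub g) ≃+ K.G 0 (aff R R)) ∧
        (∀ n, Nonempty (K.G (n + 1) (cub g) ≃+ K.G (n + 1) (aff R R) × K.G n X)) ∧
        ∀ n, AddGroup.FG (K.G (n + 1) (aff R R)) →
          (AddGroup.FG (K.G (n + 1) (cub g)) ↔ AddGroup.FG (K.G n X)) := by
  obtain ⟨hX, N, B, _, _, _, π, hπ⟩ := hX
  obtain ⟨n₀, hn⟩ := exists_quadratic_pt R B
  refine ⟨n₀, fun m hm => ?_⟩
  obtain ⟨κ, _, g, ⟨k, x, hx⟩, hg, ⟨e⟩⟩ := hn m hm
  refine ⟨κ, inferInstance, g, hg, smooth_cub g, fun _ => isRegularScheme_hyp g, fun K => ?_⟩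
  have hmain : ∀ n, Nonempty (K.G (n + 1) (cub g) ≃+ K.G (n + 1) (aff R R) × K.G n X) := by
    intro n
    obtain ⟨e1⟩ := K.succ_equiv g k x hx n
    obtain ⟨e2⟩ := K.iso_equiv n (affIso e)
    obtain ⟨e3⟩ := K.bundle_equiv n N π hX (ft_aff False) hπ
    exact ⟨e1.trans ((AddEquiv.refl _).prodCongr (e2.trans e3.symm))⟩
  refine ⟨K.zero_equiv g k x hx, hmain, fun n hR => ?_⟩
  obtain ⟨e1⟩ := hmain n
  constructor
  · intro h
    refine AddGroup.fg_of_surjective (f := (AddMonoidHom.snd (K.G (n + 1) (aff R R))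
      (K.G n X)).comp e1.toAddMonoidHom) (fun y => ⟨e1.symm (0, y), ?_⟩)
    change (e1 (e1.symm (0, y))).2 = y
    rw [e1.apply_symm_apply]
  · intro h
    refine fg_equiv ⟨e1.symm⟩ ?_
    rw [← Module.Finite.iff_addGroup_fg] at *
    infer_instance

end Pool.Agent.Results.MP_e17fa799_al.CubicSuspensionH3
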