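import Pool.Agent.E8helper74.BA.Fin2

/-!
# Bass's conjecture for systems of equations with small Newton polytopes

`KThy` (`Pool.Agent.R904.TR`) lists the properties of Quillen's groups `K'_n(X)` of schemes of finite type over
`ℤ` which are used: localization, homotopy invariance for the affine bundles of Jouanolou, the fundamental
theorem, and finite generation in dimension at most one (Quillen, Harder). `K.Fin X` means that all groups
`K'_n(X)` are finitely generated.

We prove that all `K'_n` are finitely generated for closed subschemes of affine spaces of arbitrary dimension,
for which the Newton polytopes of the equations have small dimension: over a ring `R` of dimension at most one,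
finitely generated over `ℤ`, all these polytopes may have dimension one (for example: all equations have at most
two terms, with arbitrary coefficients); over a finite field in addition one of them may be a polygon (for
example: one equation with at most three terms, or the equation of a plane curve in which the two variables are
replaced by monomials in any number of variables).

Proof: the strata given by the vanishing of some of the coordinates and of the coefficients are products of a
split torus and a scheme of dimension at most `d`: the monomials whose exponents are in the saturation of the
group generated by the differences of the exponents of the equations are integral over a ring which is generated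
over `R` by sufficiently few elements and their inverses.
-/

set_option autoImplicit false

open Pool.Agent.R904.CU Pool.Agent.R904.TR AlgebraicGeometry CategoryTheory

namespace Pool.Agent.Results.MP_e17fa799_al.NewtonPolytopesH74

/-- The closed subscheme `f_1 = ... = f_c = 0` of the affine space of dimension `N` over `R`. -/
noncomputable def zeros {R : Type} [CommRing R] {N c : ℕ} (f : Fin c → MvPolynomial (Fin N) R) :
    Scheme.{0} :=
  Spec (.of (MvPolynomial (Fin N) R ⧸ Ideal.span (Set.range f)))

/-- The dimension of the Newton polytope of `g`: the rank of the group generated by the differences of the
exponents of the monomials of `g`. It is at most the number of terms minus one. -/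
noncomputable def newtonDim {R : Type} [CommRing R] {N : ℕ} (g : MvPolynomial (Fin N) R) : ℕ :=
  Module.finrank ℤ (Submodule.span ℤ {d : Fin N → ℤ | ∃ m ∈ g.support, ∃ m' ∈ g.support,
    d = fun i => (m i : ℤ) - (m' i : ℤ)})

/-- All groups `K'_n(X)` are finitely generated, for all schemes `X` of finite type over `ℤ` and of
dimension at most `d`. (This is known for `d = 1`.) -/
def FinUpTo (K : KThy) (d : ℕ) : Prop :=
  ∀ (X : Scheme.{0}) (s : X ⟶ Spec (.of ℤ)), FinType ℤ X s → topologicalKrullDim X ≤ d → K.Fin X

/-- Let `R` be a ring which is finitely generated over `ℤ` and let `f_1, ..., f_c` be polynomials over `R` in
any number of variables, such that `dim R + ∑ max (0, dim Newt(f_l) - 1) ≤ d`. If `d ≤ 1` then all groups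
`K'_n` of the affine scheme `f_1 = ... = f_c = 0` are finitely generated. The same is true for `d ≥ 2` if it
is true for all schemes of dimension at most `d`. -/
theorem result (K : KThy) (d : ℕ) (hd : d ≤ 1 ∨ FinUpTo K d) (R : Type) [CommRing R]
    [Algebra.FiniteType ℤ R] (N c : ℕ) (f : Fin c → MvPolynomial (Fin N) R)
    (h : ringKrullDim R + ((∑ l, (newtonDim (f l) - 1) : ℕ) : WithBot ℕ∞) ≤ (d : WithBot ℕ∞)) :
    K.Fin (zeros f) := by
  rcases hd with hd | hd
  · refine Pool.Agent.E8helper74.BA.newton f (Pool.Agent.E8helper74.BA.good_one K) (h.trans ?_)
    exact_mod_cast hd
  · exact Pool.Agent.E8helper74.BA.newton f (Pool.Agent.E8helper74.BA.good_dim K d hd) h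

end Pool.Agent.Results.MP_e17fa799_al.NewtonPolytopesH74
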