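import Pool.Agent.E8helper74.BG.KGr

/-!
# Bass's conjecture for schemes with a torus action of complexity at most one

`KThy` (`Pool.Agent.R904.TR`) lists the properties of Quillen's groups `K'_n(X)` of schemes of finite type over
`ℤ` which are used: localization, homotopy invariance for the affine bundles of Jouanolou, the fundamental
theorem, and finite generation in dimension at most one (Quillen, Harder). `K.Fin X` means that all groups
`K'_n(X)` are finitely generated.

A grading of a ring `A` by `ℤ ^ m` is an action of the torus `𝔾_m ^ m` on the affine scheme `X = Spec A`. On an
irreducible component `Spec A / P` of `X` the torus acts through a quotient whose dimension is the rank of the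
group generated by the degrees of the homogeneous elements which are not in `P` (`rank`). The component has
complexity at most one if its (absolute) dimension is at most this rank plus one: for example, over a finite
field, if an orbit of the torus has codimension at most one, and over `ℤ` if generically there is an open orbit.

We prove that all `K'_n(X)` are finitely generated if all irreducible components of `X` have complexity at most
one, and the same for all invariant closed subschemes and for all invariant open subschemes of `X` (so for all
invariant locally closed subschemes). Here `X` has any dimension and any singularities. Examples over finite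
fields: affine toric varieties, affine surfaces with an action of the multiplicative group, affine threefolds
with an action of a torus of dimension two, affine cones over curves, trinomial hypersurfaces, and the
complements of invariant closed subsets.

Proof: the strata given by the vanishing of homogeneous generators are products of a split torus and a scheme
`Y`. A chain of prime ideals of the ring of `Y` gives algebraically independent fractions of degree zero; these
are lifted to an irreducible component of `X` and, together with homogeneous elements of independent degrees,
give the lower bound for its dimension that shows `dim Y ≤ 1`.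
-/

set_option autoImplicit false

open Pool.Agent.R904.CU Pool.Agent.R904.TR AlgebraicGeometry CategoryTheory

namespace Pool.Agent.Results.MP_e17fa799_al.TorusComplexityOneH74

/-- The rank of the group generated by the degrees of the homogeneous elements which are not in `P`: the
dimension of the torus which acts effectively on the closed subscheme `Spec A / P`. -/
noncomputable def rank {A : Type} [CommRing A] {m : ℕ} (𝒜 : (Fin m → ℤ) → AddSubgroup A)
    (P : Ideal A) : ℕ :=
  Module.finrank ℤ (Submodule.span ℤ {lam : Fin m → ℤ | ∃ a ∈ 𝒜 lam, a ∉ P})

/-- All groups `K'_n(X)` are finitely generated, for all schemes `X` of finite type over `ℤ` and of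
dimension at most `d`. (This is known for `d = 1`.) -/
def FinUpTo (K : KThy) (d : ℕ) : Prop :=
  ∀ (X : Scheme.{0}) (s : X ⟶ Spec (.of ℤ)), FinType ℤ X s → topologicalKrullDim X ≤ d → K.Fin X

/-- Let `A` be a ring which is finitely generated over `ℤ` and graded by `ℤ ^ m`, such that every irreducible
component of `Spec A` has dimension at most `d` plus the dimension of the torus acting on it. If `d ≤ 1` then
all `K'_n` of all invariant closed subschemes of `Spec A` and of their complements are finitely generated. The
same is true for `d ≥ 2` if it is true for all schemes of dimension at most `d`. -/
theorem result (K : KThy) (d : ℕ) (hd : d ≤ 1 ∨ FinUpTo K d) (A : Type) [CommRing A]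
    [Algebra.FiniteType ℤ A] (m : ℕ) (𝒜 : (Fin m → ℤ) → AddSubgroup A) [GradedRing 𝒜]
    (h : ∀ P ∈ minimalPrimes A, ringKrullDim (A ⧸ P) ≤ ((d + rank 𝒜 P : ℕ) : WithBot ℕ∞))
    (I : Ideal A) (hI : I.IsHomogeneous 𝒜) :
    K.Fin (Spec (.of (A ⧸ I))) ∧ ∀ (U : Scheme.{0}) (j : U ⟶ Spec (.of A)), IsOpenImmersion j →
      Set.range j = {x : PrimeSpectrum A | ¬ I ≤ x.asIdeal} → K.Fin U := by
  rcases hd with hd | hd
  · refine Pool.Agent.E8helper74.BG.k_graded K (Pool.Agent.E8helper74.BA.good_one K) A 𝒜
      (fun P hP => (h P hP).trans ?_) I hI
    have h1 : d + rank 𝒜 P ≤ 1 + rank 𝒜 P := Nat.add_le_add_right hd _
    exact_mod_cast h1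
  · exact Pool.Agent.E8helper74.BG.k_graded K (Pool.Agent.E8helper74.BA.good_dim K d hd) A 𝒜 h I hI

end Pool.Agent.Results.MP_e17fa799_al.TorusComplexityOneH74
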