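import Pool.Agent.E8helper74.BA.Fin2

/-!
# Bass's conjecture: two or three terms

`KThy` (`Pool.Agent.R904.TR`) lists the properties of Quillen's groups `K'_n(X)` of schemes of finite type over
`ℤ` which are used: localization, homotopy invariance for the affine bundles of Jouanolou, the fundamental
theorem, and finite generation in dimension at most one (Quillen, Harder). `K.Fin X` means that all groups
`K'_n(X)` are finitely generated, and `K.Bass` is Bass's conjecture.

For a trilinear form `T = ∑ T_ijk x_i y_j z_k` over `R` the hypersurface `T(x, y, z) = 1` (`hypS T`) is smooth
over `R`. We consider the number of terms of `T` which contain a given variable `x_i`. For all forms over `ℤ`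
with coefficients `0` and `1` for which these numbers are at most THREE the conjecture is equivalent to Bass's
conjecture for all regular schemes; we prove it, for all forms with arbitrary coefficients in a ring of dimension
at most one, if these numbers are at most TWO.
-/

set_option autoImplicit false

open Pool.Agent.R904.CU Pool.Agent.R904.TR Pool.Agent.Y116.UV AlgebraicGeometry

namespace Pool.Agent.Results.MP_e17fa799_al.TwoOrThreeTermsH74

/-- The number of terms of `T = ∑ T_ijk x_i y_j z_k` which contain `x_i`. -/
noncomputable def terms {R : Type} [CommRing R] {a b c : ℕ} (T : Fin a → Fin b → Fin c → R)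
    (i : Fin a) : ℕ :=
  Nat.card {p : Fin b × Fin c // T i p.1 p.2 ≠ 0}

/-- (1) For every trilinear form `T` over a ring `R` of dimension at most one, finitely generated over `ℤ`, such
that every variable `x_i` of the first block occurs in at most two terms of `T`, all groups `K'_n` of the
hypersurface `T(x, y, z) = 1` are finitely generated. Over a ring of dimension zero (for example a finite field)
one of the variables `x_i` may occur in three terms.
(2) Bass's conjecture is equivalent to the finite generation of all groups `K'_n` of the hypersurfaces
`T(x, y, z) = 1` over `ℤ` for the trilinear forms `T` with coefficients `0` and `1` such that every variable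
`x_i` of the first block occurs in at most three terms. -/
theorem result (K : KThy) :
    (∀ (R : Type) [CommRing R] [Algebra.FiniteType ℤ R] (a b c : ℕ) (T : Fin a → Fin b → Fin c → R),
      ringKrullDim R + ((∑ i, (terms T i - 2) : ℕ) : WithBot ℕ∞) ≤ 1 → K.Fin (hypS T).left) ∧
    (K.Bass ↔ ∀ (a b c : ℕ) (T : Fin a → Fin b → Fin c → ℤ), (∀ i j k, T i j k = 0 ∨ T i j k = 1) →
      (∀ i, terms T i ≤ 3) → K.Fin (hypS T).left) :=
  ⟨fun R _ _ _ _ _ T h => Pool.Agent.E8helper74.BA.hyp_fin K 1
    (fun A _ _ hA => fin_dim_one K A (by exact_mod_cast hA)) R T (by exact_mod_cast h),
    Pool.Agent.E8helper74.BA.bass_three K⟩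

end Pool.Agent.Results.MP_e17fa799_al.TwoOrThreeTermsH74
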